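import Pool.Agent.K1H82.KS.Fin

/-!
# Arbitrary sets of places
-/

set_option autoImplicit false
set_option linter.unusedSectionVars false

open MvPolynomial Pool.Agent.K1H82.KR Filter Topology

namespace Pool.Agent.K1H82.KS

variable {K : Type} [Field K] {N : ℕ}

/-- The ideal of the local Zariski closure of the set of the rational points of `X` outside the
closed set defined by `eqW`, at the point `x = (x_i)` of the product of the projective spaces over
some completions `L i` of `K` with the product topology: the polynomials which vanish on all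
multiples of the rational points which are near `x_i` in `L i` for all `i` in a finite set `s`. -/
def IdealAt (eqX eqW : Set (MvPolynomial (Fin N) K)) {ι : Type} {L : ι → Type}
    [∀ i, NormedField (L i)] (σ : ∀ i, K →+* L i) (x : ∀ i, Fin N → L i) :
    Set (MvPolynomial (Fin N) K) :=
  {f | ∃ (s : Finset ι) (U : ∀ i, Set (Fin N → L i)), (∀ i, U i ∈ nhds (x i)) ∧
    ∀ y ∈ RatPts eqX eqW, (∀ i ∈ s, ∃ c : L i, c ≠ 0 ∧ (fun j => c * σ i (y j)) ∈ U i) →
      ∀ a : K, eval (a • y) f = 0}

/-- the finite sets of places -/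
lemma idealAt_eq (eqX eqW : Set (MvPolynomial (Fin N) K)) {ι : Type} {L : ι → Type}
    [∀ i, NormedField (L i)] (σ : ∀ i, K →+* L i) (x : ∀ i, Fin N → L i) :
    IdealAt eqX eqW σ x = {f | ∃ s : Finset ι, f ∈ IdealFin (L := fun i : s => L i) eqX eqW
      (fun i : s => σ i) (fun i : s => x i)} := by
  classical
  ext f
  constructor
  · rintro ⟨s, U, hU, hf⟩
    exact ⟨s, fun i => U i, fun i => hU i, fun y hy hc a =>
      hf y hy (fun i hi => hc ⟨i, hi⟩) a⟩
  · rintro ⟨s, U, hU, hf⟩
    refine ⟨s, fun i => if h : i ∈ s then U ⟨i, h⟩ else Set.univ, fun i => ?_,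
      fun y hy hc a => hf y hy (fun i => ?_) a⟩
    · by_cases h : i ∈ s
      · simp only [dif_pos h]
        exact hU ⟨i, h⟩
      · simp only [dif_neg h]
        exact univ_mem
    · have := hc i i.2
      simp only [dif_pos i.2] at this
      exact this

lemma idealFin_mono (eqX eqW : Set (MvPolynomial (Fin N) K)) {ι : Type} {L : ι → Type}
    [∀ i, NormedField (L i)] (σ : ∀ i, K →+* L i) (x : ∀ i, Fin N → L i) {s t : Finset ι}
    (h : s ⊆ t) : IdealFin (L := fun i : s => L i) eqX eqW (fun i : s => σ i) (fun i : s => x i) ⊆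
      IdealFin (L := fun i : t => L i) eqX eqW (fun i : t => σ i) (fun i : t => x i) := by
  classical
  rintro f ⟨U, hU, hf⟩
  refine ⟨fun i => if h : (i : ι) ∈ s then U ⟨i, h⟩ else Set.univ, fun i => ?_,
    fun y hy hc a => hf y hy (fun i => ?_) a⟩
  · by_cases h : (i : ι) ∈ s
    · simp only [dif_pos h]
      exact hU ⟨i, h⟩
    · simp only [dif_neg h]
      exact univ_mem
  · have := hc ⟨i, h i.2⟩
    simp only [dif_pos i.2] at this
    exact this

/-- From finite to arbitrary sets of places. -/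
theorem uni_all {eqX eqW : Set (MvPolynomial (Fin N) K)} (h : Uni eqX eqW) :
    ∃ 𝒯 : Set (Set (MvPolynomial (Fin N) K)), 𝒯.Finite ∧
      ∀ (ι : Type) (L : ι → Type) [∀ i, NontriviallyNormedField (L i)]
        [∀ i, CompleteSpace (L i)] (σ : ∀ i, K →+* L i), (∀ i, DenseRange (σ i)) →
        ∀ x : ∀ i, Fin N → L i, (∀ i, x i ≠ 0) → IdealAt eqX eqW σ x ∈ 𝒯 := by
  classical
  obtain ⟨𝒯, hf, h𝒯⟩ := h
  refine ⟨𝒯, hf, fun ι L _ _ σ hσ x hx => ?_⟩
  set I : Finset ι → Set (MvPolynomial (Fin N) K) := fun s =>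
    IdealFin (L := fun i : s => L i) eqX eqW (fun i : s => σ i) (fun i : s => x i) with hI
  have hIm : ∀ s, I s ∈ 𝒯 := fun s => h𝒯 s (fun i => L i) (fun i => σ i) (fun i => hσ i)
    (fun i => x i) (fun i => hx i)
  have hfin : (Set.range I).Finite := hf.subset (by
    rintro _ ⟨s, rfl⟩
    exact hIm s)
  obtain ⟨_, ⟨s0, rfl⟩, hmax⟩ := hfin.exists_maximal ⟨I ∅, ∅, rfl⟩
  have hge : ∀ s, I s ⊆ I s0 := by
    intro s
    have h1 : I s0 ⊆ I (s ∪ s0) := idealFin_mono eqX eqW σ x Finset.subset_union_right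
    have h2 : I (s ∪ s0) ⊆ I s0 := hmax ⟨_, rfl⟩ h1
    exact (idealFin_mono eqX eqW σ x Finset.subset_union_left).trans h2
  have : IdealAt eqX eqW σ x = I s0 := by
    rw [idealAt_eq]
    ext f
    exact ⟨fun ⟨s, hs⟩ => hge s hs, fun hs => ⟨s0, hs⟩⟩
  rw [this]
  exact hIm s0

end Pool.Agent.K1H82.KS
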