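import Pool.Agent.K1H82.KS.Pl

/-!
# Finiteness of the set of the local ideals at all finite sets of places together
-/

set_option autoImplicit false
set_option linter.unusedSectionVars false

open MvPolynomial Pool.Agent.TH954.X Pool.Agent.K1H82.KM Filter Topology
open Pool.Agent.K1H82.KQ (EndAlg sg Val1 eI mI mI_pos mI_mem mul_eI torB)
open Pool.Agent.K1H82.KR

namespace Pool.Agent.K1H82.KS

section defs

variable {K : Type} [Field K] {N : ℕ}

/-- The ideal of the local Zariski closure of the set of the rational points of `X` outside the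
closed set defined by `eqW`, at the point `x = (x_i)` of the product of the projective spaces over
finitely many completions `L i` of `K`: the polynomials which vanish on all multiples of the
rational points which are near `x_i` in all the `L i`. -/
def IdealFin (eqX eqW : Set (MvPolynomial (Fin N) K)) {ι : Type} {L : ι → Type}
    [∀ i, NormedField (L i)] (σ : ∀ i, K →+* L i) (x : ∀ i, Fin N → L i) :
    Set (MvPolynomial (Fin N) K) :=
  {f | ∃ U : ∀ i, Set (Fin N → L i), (∀ i, U i ∈ nhds (x i)) ∧ ∀ y ∈ RatPts eqX eqW,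
    (∀ i, ∃ c : L i, c ≠ 0 ∧ (fun j => c * σ i (y j)) ∈ U i) → ∀ a : K, eval (a • y) f = 0}

end defs

variable {K : Type} [Field K] {n N : ℕ} {A : AbVar K n} {E : EndAlg A} {G : Type} [Group G]
  [Fintype G]

theorem mainS [NumberField K] (X : QuotR E N G) {ι : Type} [Finite ι] [Nonempty ι]
    (L : ι → Type) [∀ i, NontriviallyNormedField (L i)] [∀ i, CompleteSpace (L i)]
    (σ : ∀ i, K →+* L i) (hσ : ∀ i, DenseRange (σ i)) (x : ∀ i, Fin N → L i)
    (hx0 : ∀ i, x i ≠ 0) :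
    IdealFin X.eqX X.eqW σ x ∈ (fun S => {f | ∀ I ∈ S, f ∈ I}) '' (Typ1 X).powerset := by
  -- the types which occur in every neighbourhood
  set S : Set (Set (MvPolynomial (Fin N) K)) := {I | I ∈ Typ1 X ∧
    ∀ U : ∀ i, Set (Fin N → L i), (∀ i, U i ∈ 𝓝 (x i)) →
    ∃ (P : A.Pt (AlgebraicClosure K)) (y : Fin N → K), Val1 X.Fam P.1 (up y) ∧
      Off X.eqW (up y) ∧ (∀ i, ∃ c : L i, c ≠ 0 ∧ (fun j => c * σ i (y j)) ∈ U i) ∧
      I = ZIe X P (eI E (an X P))} with hS
  refine ⟨S, fun I hI => hI.1, ?_⟩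
  ext f
  constructor
  · intro hf
    have hU : ∀ I ∈ Typ1 X, ∃ U : ∀ i, Set (Fin N → L i), (∀ i, U i ∈ 𝓝 (x i)) ∧ (I ∉ S →
        ¬ ∃ (P : A.Pt (AlgebraicClosure K)) (y : Fin N → K), Val1 X.Fam P.1 (up y) ∧
          Off X.eqW (up y) ∧ (∀ i, ∃ c : L i, c ≠ 0 ∧ (fun j => c * σ i (y j)) ∈ U i) ∧
          I = ZIe X P (eI E (an X P))) := by
      intro I hI
      by_cases hIS : I ∈ S
      · exact ⟨fun _ => Set.univ, fun _ => univ_mem, fun h => absurd hIS h⟩
      · have h1 : ¬ ∀ U : ∀ i, Set (Fin N → L i), (∀ i, U i ∈ 𝓝 (x i)) →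
            ∃ (P : A.Pt (AlgebraicClosure K)) (y : Fin N → K), Val1 X.Fam P.1 (up y) ∧
              Off X.eqW (up y) ∧
              (∀ i, ∃ c : L i, c ≠ 0 ∧ (fun j => c * σ i (y j)) ∈ U i) ∧
              I = ZIe X P (eI E (an X P)) := fun h => hIS ⟨hI, h⟩
        simp only [not_forall] at h1
        obtain ⟨U, hU, hU'⟩ := h1
        exact ⟨U, hU, fun _ => hU'⟩
    choose! U hU hUI using hU
    refine ⟨fun i => ⋂ I ∈ Typ1 X, U I i, fun i => (Filter.biInter_mem (typ1_fin X)).2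
      (fun I hI => hU I hI i), ?_⟩
    rintro y ⟨hy0, hye, hyo⟩ hyU a
    have hup0 : up y ≠ 0 := by
      intro h0
      apply hy0
      funext i
      have := congrFun h0 i
      exact (map_eq_zero_iff _ (algebraMap K (AlgebraicClosure K)).injective).1 this
    have ho : Off X.eqW (up y) := off_up.2 hyo
    obtain ⟨P, hP⟩ := X.surj (up y) hup0 (fun g hg => (eval_up_iff y g).2 (hye g hg)) ho
    have hT : ZIe X P (eI E (an X P)) ∈ Typ1 X := ⟨P, y, hP, ho, rfl⟩
    have hIS : ZIe X P (eI E (an X P)) ∈ S := by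
      by_contra hIS
      refine hUI _ hT hIS ⟨P, y, hP, ho, fun i => ?_, rfl⟩
      obtain ⟨c, hc, hcU⟩ := hyU i
      exact ⟨c, hc, Set.mem_iInter₂.1 hcU _ hT⟩
    have h2 := hf _ hIS 0 (up y) (by rw [map_zero, add_zero]; exact hP)
      (algebraMap K (AlgebraicClosure K) a)
    have h3 : algebraMap K (AlgebraicClosure K) a • up y = up (a • y) := by
      funext i
      change _ * algebraMap K (AlgebraicClosure K) (y i) =
        algebraMap K (AlgebraicClosure K) (a * y i)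
      rw [map_mul]
    rw [h3] at h2
    exact (eval_up_iff _ _).1 h2
  · rintro ⟨U, hU, hf⟩ I ⟨hI, hI'⟩
    choose V hVU hV hxV using fun i => mem_nhds_iff.1 (hU i)
    have hV0 : ∀ i, IsOpen (V i ∩ {v | v ≠ 0}) := fun i => (hV i).inter isOpen_ne
    obtain ⟨P, y, hy, ho, hc, rfl⟩ := hI' (fun i => V i ∩ {v | v ≠ 0})
      (fun i => (hV0 i).mem_nhds ⟨hxV i, hx0 i⟩)
    refine locS X L σ hσ f hV0 (fun i h => h.2 rfl) ?_ P y hy ho
      (fun i => (hc i).imp fun c h => h.2) (eI E (an X P)) (mul_eI _)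
    intro y hy0 hye hyo hc a
    refine hf y ⟨hy0, hye, hyo⟩ (fun i => ?_) a
    obtain ⟨c, hc, hcU⟩ := hc i
    exact ⟨c, hc, hVU i hcU.1⟩

section cov

variable {K : Type} [Field K] {N : ℕ}

/-- a finite set of ideals which contains all the ideals of the local Zariski closures -/
def Uni (eqX eqW : Set (MvPolynomial (Fin N) K)) : Prop :=
  ∃ 𝒯 : Set (Set (MvPolynomial (Fin N) K)), 𝒯.Finite ∧
    ∀ (ι : Type) [Finite ι] (L : ι → Type) [∀ i, NontriviallyNormedField (L i)]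
      [∀ i, CompleteSpace (L i)] (σ : ∀ i, K →+* L i), (∀ i, DenseRange (σ i)) →
      ∀ x : ∀ i, Fin N → L i, (∀ i, x i ≠ 0) → IdealFin eqX eqW σ x ∈ 𝒯

lemma empty_eq (eqX eqW : Set (MvPolynomial (Fin N) K)) {ι : Type} [IsEmpty ι] {L : ι → Type}
    [∀ i, NormedField (L i)] (σ : ∀ i, K →+* L i) (x : ∀ i, Fin N → L i) :
    IdealFin eqX eqW σ x = {f | ∀ y ∈ RatPts eqX eqW, ∀ a : K, eval (a • y) f = 0} := by
  ext f
  constructor
  · rintro ⟨U, -, hf⟩ y hy a
    exact hf y hy (fun i => isEmptyElim i) a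
  · intro hf
    exact ⟨fun i => isEmptyElim i, fun i => isEmptyElim i, fun y hy _ a => hf y hy a⟩

/-- The sets of rational points which are covered by finitely many sets. -/
theorem uni_cover {κ : Type} [Finite κ] {eqXi eqWi : κ → Set (MvPolynomial (Fin N) K)}
    {eqX eqW : Set (MvPolynomial (Fin N) K)}
    (h : ∀ y, y ∈ RatPts eqX eqW ↔ ∃ i, y ∈ RatPts (eqXi i) (eqWi i))
    (h1 : ∀ i, Uni (eqXi i) (eqWi i)) : Uni eqX eqW := by
  classical
  choose 𝒯 h𝒯 h𝒯' using h1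
  refine ⟨(fun J : κ → Set (MvPolynomial (Fin N) K) => ⋂ i, J i) '' {J | ∀ i, J i ∈ 𝒯 i},
    (Set.Finite.pi' h𝒯).image _, ?_⟩
  intro ι _ L _ _ σ hσ x hx0
  refine ⟨fun i => IdealFin (eqXi i) (eqWi i) σ x, fun i => h𝒯' i ι L σ hσ x hx0, ?_⟩
  ext f
  simp only [Set.mem_iInter]
  constructor
  · intro hf
    choose U hU hf using hf
    refine ⟨fun i => ⋂ k, U k i, fun i => (Filter.iInter_mem).2 (fun k => hU k i),
      fun y hy hc a => ?_⟩
    obtain ⟨k, hk⟩ := (h y).1 hy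
    refine hf k y hk (fun i => ?_) a
    obtain ⟨c, hc, hcU⟩ := hc i
    exact ⟨c, hc, Set.mem_iInter.1 hcU k⟩
  · rintro ⟨U, hU, hf⟩ k
    exact ⟨U, hU, fun y hy hc a => hf y ((h y).2 ⟨k, hy⟩) hc a⟩

/-- one piece -/
theorem uni_piece [NumberField K] (p : Piece K N) : Uni p.X.eqX p.X.eqW := by
  have := Fintype.ofFinite p.G
  set X := toQuotR p.X p.T p.quot with hX
  refine ⟨(fun S => {f | ∀ I ∈ S, f ∈ I}) '' (Typ1 X).powerset ∪
    {{f | ∀ y ∈ RatPts p.X.eqX p.X.eqW, ∀ a : K, eval (a • y) f = 0}},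
    ((typ1_fin X).powerset.image _).union (Set.finite_singleton _), ?_⟩
  intro ι _ L _ _ σ hσ x hx0
  cases isEmpty_or_nonempty ι with
  | inl h =>
    right
    exact empty_eq _ _ _ _
  | inr h =>
    left
    exact mainS X L σ hσ x hx0

theorem cover_all [NumberField K] {κ : Type} [Finite κ] (p : κ → Piece K N)
    {eqX eqW : Set (MvPolynomial (Fin N) K)}
    (h : ∀ y, y ∈ RatPts eqX eqW ↔ ∃ i, y ∈ RatPts (p i).X.eqX (p i).X.eqW) : Uni eqX eqW :=
  uni_cover h (fun i => uni_piece (p i))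

end cov

end Pool.Agent.K1H82.KS
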