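import Pool.Agent.K1H82.KR.St
import Pool.Agent.K1H82.KB.Fin

/-!
# Multiples which are small at several places
-/

set_option autoImplicit false
set_option linter.unusedSectionVars false

open MvPolynomial Pool.Agent.TH954.X Pool.Agent.K1H82.KM Filter Topology

namespace Pool.Agent.K1H82.KS

/-- every sequence of integers has a subsequence all of whose differences are in `U` -/
def Sq (U : Set ℤ) : Prop :=
  ∀ ν : ℕ → ℤ, ∃ φ : ℕ → ℕ, StrictMono φ ∧ ∀ k l, ν (φ k) - ν (φ l) ∈ U

lemma Sq.mono {U V : Set ℤ} (h : Sq U) (hUV : U ⊆ V) : Sq V := fun ν => by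
  obtain ⟨φ, hφ, h⟩ := h ν
  exact ⟨φ, hφ, fun k l => hUV (h k l)⟩

lemma Sq.exists_ne {U : Set ℤ} (h : Sq U) : ∃ m : ℤ, m ≠ 0 ∧ m ∈ U := by
  obtain ⟨φ, hφ, h⟩ := h (fun k => (k : ℤ))
  refine ⟨(φ 1 : ℤ) - φ 0, ?_, h 1 0⟩
  have := hφ Nat.zero_lt_one
  omega

lemma Sq.iInter {ι : Type*} [Finite ι] {U : ι → Set ℤ} (h : ∀ i, Sq (U i)) :
    Sq (⋂ i, U i) := by
  classical
  have := Fintype.ofFinite ι
  have key : ∀ s : Finset ι, Sq {m | ∀ i ∈ s, m ∈ U i} := by
    intro s
    induction s using Finset.induction_on with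
    | empty =>
      intro ν
      exact ⟨id, strictMono_id, fun k l i hi => absurd hi (Finset.notMem_empty i)⟩
    | insert a s _ ih =>
      intro ν
      obtain ⟨φ, hφ, h1⟩ := ih ν
      obtain ⟨ψ, hψ, h2⟩ := h a (fun k => ν (φ k))
      refine ⟨φ ∘ ψ, hφ.comp hψ, fun k l i hi => ?_⟩
      rcases Finset.mem_insert.1 hi with rfl | hi
      · exact h2 k l
      · exact h1 _ _ i hi
  refine (key Finset.univ).mono (fun m hm => ?_)
  rw [Set.mem_iInter]
  exact fun i => hm i (Finset.mem_univ i)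

section seq

variable {K : Type} [Field K] {n : ℕ} {L E : Type} [NontriviallyNormedField L] [ProperSpace L]
  [Field E] [Algebra L E] [FiniteDimensional L E] [TopologicalSpace E] [IsModuleTopology L E]
  [Algebra K E] [Algebra K L] [IsScalarTower K L E]

include L in
/-- the differences of a subsequence of a sequence of multiples are near zero -/
lemma sq_near (A : AbVar K n) (P : A.Pt E) {W : Set (Fin n → E)}
    (hW : W ∈ 𝓝 (0 : A.Pt E).1) : Sq {m : ℤ | Nr W (m • P).1} := by
  intro ν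
  have := topring L E
  have := t2E L E
  obtain ⟨c, φ, w, hc, hφ, hw, hlim⟩ := compact_dir (L := L) (fun k : ℕ => (ν k • P).1)
    (fun k => (ν k • P).2.1.ne_zero)
  have hcont : ∀ i, Continuous fun x : Fin n → E => aeval x (A.eqn i) := by
    intro i
    have h : (fun x : Fin n → E => aeval x (A.eqn i)) =
        fun x => eval x (MvPolynomial.map (algebraMap K E) (A.eqn i)) := by
      funext x
      rw [aeval_def, eval₂_eq_eval_map]
    rw [h]
    exact MvPolynomial.continuous_eval _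
  have hweq : ∀ i, aeval w (A.eqn i) = 0 := by
    intro i
    have h1 := ((hcont i).tendsto w).comp hlim
    have h2 : (fun x : Fin n → E => aeval x (A.eqn i)) ∘
        (fun k => c (φ k) • (ν (φ k) • P).1) = fun _ => 0 := by
      funext k
      simp only [Function.comp]
      rw [aeval_smul1 (A.hom i), ((ν (φ k) • P).2.2 i), mul_zero]
    rw [h2] at h1
    exact tendsto_nhds_unique h1 tendsto_const_nhds
  obtain ⟨s, R, hs, rfl⟩ := exists_pt A hw hweq
  have hW2 : W ∈ 𝓝 (R - R).1 := by rwa [sub_self]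
  obtain ⟨W1, hW1, W2, hW2, h12⟩ := cont_sub (L := L) A R R hW2
  have hlim2 : Tendsto (fun k => (s⁻¹ * c (φ k)) • (ν (φ k) • P).1) atTop (𝓝 R.1) := by
    have h1 : Tendsto (fun k => s⁻¹ • (c (φ k) • (ν (φ k) • P).1)) atTop (𝓝 (s⁻¹ • (s • R.1))) :=
      hlim.const_smul s⁻¹
    rw [inv_smul_smul₀ hs] at h1
    refine h1.congr fun k => ?_
    rw [smul_smul]
  have hev := hlim2.eventually (inter_mem hW1 hW2)
  obtain ⟨k0, hk0⟩ := eventually_atTop.1 hev
  have hnr : ∀ k, k0 ≤ k → Nr (W1 ∩ W2) (ν (φ k) • P).1 := fun k hk =>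
    ⟨_, mul_ne_zero (inv_ne_zero hs) (hc _), hk0 k hk⟩
  refine ⟨fun k => φ (k + k0), fun k l hkl => hφ (Nat.add_lt_add_right hkl k0), fun k l => ?_⟩
  have h3 := h12 _ _ ((hnr (k + k0) (Nat.le_add_left _ _)).mono Set.inter_subset_left)
    ((hnr (l + k0) (Nat.le_add_left _ _)).mono Set.inter_subset_right)
  change Nr W ((ν (φ (k + k0)) - ν (φ (l + k0))) • P).1
  rw [sub_smul]
  exact h3

end seq

end Pool.Agent.K1H82.KS
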